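import Mathlib

/-!
# Primitive lattice tilings with a prescribed number of tiles

For every `n ≥ 1` there is a primitive lattice tiling with exactly `n` tiles.

For `n = 1, 2, 3, 5` the cosets of `nℤ` in `ℤ` do.  For the other `n` the tilings come from partitions
of a vector space over the field with two elements into affine subspaces no proper subfamily of which
(with at least two members) has an affine subspace as its union.  Such a partition with two parts
`{p, q}`, `{r, s}` gives one with two more parts in one dimension more: in the second layer the four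
points are paired as `{p, r}`, `{q, s}`, and all other parts are doubled.  The construction starts from
a partition of the three-dimensional space into 4 parts and from a partition of the four-dimensional
space into 7 parts.
-/

set_option autoImplicit false

namespace Pool.Agent.Results.MP_f7d7fe_co.AllSizes

open Set

/-! ### Definitions used in the statement -/

/-- The translate `v + L` of a subgroup `L` of `ℤ^d`. -/
def translate {d : ℕ} (v : Fin d → ℤ) (L : AddSubgroup (Fin d → ℤ)) : Set (Fin d → ℤ) :=
  (fun l => v + l) '' (L : Set (Fin d → ℤ))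

/-- A lattice translate: a translate of a subgroup of finite index of `ℤ^d`. -/
def IsLatticeTranslate {d : ℕ} (S : Set (Fin d → ℤ)) : Prop :=
  ∃ (v : Fin d → ℤ) (L : AddSubgroup (Fin d → ℤ)), L.FiniteIndex ∧ S = translate v L

/-- A lattice tiling of `ℤ^d` with `n` lattice translates. -/
structure Tiling (d n : ℕ) where
  /-- the translation vectors -/
  v : Fin n → Fin d → ℤ
  /-- the lattices -/
  L : Fin n → AddSubgroup (Fin d → ℤ)
  /-- the lattices have finite index -/
  finiteIndex : ∀ i, (L i).FiniteIndex
  /-- the tiles are pairwise disjoint -/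
  disjoint : ∀ i j, i ≠ j → Disjoint (translate (v i) (L i)) (translate (v j) (L j))
  /-- the tiles cover `ℤ^d` -/
  cover : ⋃ i, translate (v i) (L i) = univ

/-- The tiling splits: the index set has a partition into at least two (nonempty) blocks, at least
one of which has at least two elements, such that the union over every block is a lattice
translate. -/
def Tiling.Splits {d n : ℕ} (T : Tiling d n) : Prop :=
  ∃ P : Finpartition (Finset.univ : Finset (Fin n)), 2 ≤ P.parts.card ∧
    (∃ I ∈ P.parts, 2 ≤ I.card) ∧
    ∀ I ∈ P.parts, IsLatticeTranslate (⋃ i ∈ I, translate (T.v i) (T.L i))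

/-- A tiling is primitive if it does not split. -/
def Tiling.Primitive {d n : ℕ} (T : Tiling d n) : Prop := ¬ T.Splits

/-! ### Partitions of groups into cosets -/

/-- The set is empty or a coset. -/
def CosetLike {G : Type} [AddCommGroup G] (S : Set G) : Prop :=
  ∀ x ∈ S, ∀ y ∈ S, ∀ z ∈ S, x - y + z ∈ S

/-- The fibres of `A` are cosets, and no union of at least two of them, but not all, is a coset. -/
def Irreducible {G ι : Type} [AddCommGroup G] (A : G → ι) : Prop :=
  Function.Surjective A ∧ (∀ i, CosetLike (A ⁻¹' {i})) ∧
    ∀ I : Set ι, I.Nontrivial → CosetLike (A ⁻¹' I) → I = univ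

/-- There is an irreducible partition of a finite abelian group into `n` cosets. -/
def Good (n : ℕ) : Prop :=
  ∃ (G : Type) (_ : AddCommGroup G) (_ : Finite G) (A : G → Fin n), Irreducible A

/-- From a partition of a finite group to a tiling of `ℤ^d`. -/
lemma Good.exists_tiling {n : ℕ} (h : Good n) :
    ∃ d, 1 ≤ d ∧ ∃ T : Tiling d n, T.Primitive := by
  classical
  obtain ⟨G, _, _, A, hA, hfib, hirr⟩ := h
  have : Fintype G := Fintype.ofFinite G
  set d := Fintype.card G with hd
  have e : Fin d ≃ G := (Fintype.equivFin G).symm
  let f : (Fin d → ℤ) →+ G :=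
    { toFun := fun x => ∑ i, x i • e i
      map_zero' := by simp
      map_add' := fun x y => by simp [add_smul, Finset.sum_add_distrib] }
  have hf : Function.Surjective f := by
    intro g
    refine ⟨Pi.single (e.symm g) 1, ?_⟩
    show ∑ i, (Pi.single (e.symm g) 1 : Fin d → ℤ) i • e i = g
    rw [Finset.sum_eq_single (e.symm g)]
    · simp
    · intro b _ hb
      rw [Pi.single_eq_of_ne hb]
      simp
    · simp
  choose g hg using hA
  choose v hv using fun i => hf (g i)
  let K : Fin n → AddSubgroup G := fun i =>
    { carrier := {x | A (g i + x) = i}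
      zero_mem' := by
        show A (g i + 0) = i
        rw [add_zero]; exact hg i
      add_mem' := by
        intro a b ha hb
        have h1 := hfib i (g i + a) ha (g i) (hg i) (g i + b) hb
        have h2 : g i + a - g i + (g i + b) = g i + (a + b) := by abel
        rw [h2] at h1
        exact h1
      neg_mem' := by
        intro a ha
        have h1 := hfib i (g i) (hg i) (g i + a) ha (g i) (hg i)
        have h2 : g i - (g i + a) + g i = g i + -a := by abel
        rw [h2] at h1
        exact h1 }
  have htile : ∀ i, translate (v i) ((K i).comap f) = {x | A (f x) = i} := by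
    intro i
    ext x
    constructor
    · rintro ⟨l, hl, rfl⟩
      show A (f (v i + l)) = i
      rw [map_add, hv]
      exact hl
    · intro hx
      refine ⟨x - v i, ?_, by simp⟩
      show A (g i + f (x - v i)) = i
      rw [map_sub, hv]
      have : g i + (f x - g i) = f x := by abel
      rw [this]
      exact hx
  refine ⟨d, Fintype.card_pos, ⟨v, fun i => (K i).comap f, ?_, ?_, ?_⟩, ?_⟩
  · intro i
    constructor
    rw [AddSubgroup.index_comap_of_surjective _ hf]
    exact AddSubgroup.FiniteIndex.index_ne_zero
  · intro i j hij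
    rw [htile, htile, Set.disjoint_left]
    intro x hx hy
    exact hij (hx.symm.trans hy)
  · apply eq_univ_of_forall
    intro x
    rw [mem_iUnion]
    refine ⟨A (f x), ?_⟩
    rw [htile]
    rfl
  · rintro ⟨P, hP2, ⟨I, hI, hI2⟩, hall⟩
    obtain ⟨w, L, -, hL⟩ := hall I hI
    have hU : (⋃ i ∈ I, translate (v i) ((K i).comap f)) = {x | A (f x) ∈ I} := by
      ext x
      simp only [htile, mem_iUnion]
      constructor
      · rintro ⟨i, hi, hx⟩
        have hx' : A (f x) = i := hx
        show A (f x) ∈ I
        rw [hx']; exact hi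
      · intro hx
        exact ⟨A (f x), hx, rfl⟩
    rw [hU] at hL
    have hcl : CosetLike (A ⁻¹' (I : Set (Fin n))) := by
      intro x hx y hy z hz
      obtain ⟨x, rfl⟩ := hf x
      obtain ⟨y, rfl⟩ := hf y
      obtain ⟨z, rfl⟩ := hf z
      have hx' : x ∈ translate w L := by rw [← hL]; exact hx
      have hy' : y ∈ translate w L := by rw [← hL]; exact hy
      have hz' : z ∈ translate w L := by rw [← hL]; exact hz
      obtain ⟨a, ha, rfl⟩ := hx'
      obtain ⟨b, hb, rfl⟩ := hy'
      obtain ⟨c, hc, rfl⟩ := hz'
      have h1 : (w + a) - (w + b) + (w + c) ∈ translate w L := by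
        refine ⟨a - b + c, L.add_mem (L.sub_mem ha hb) hc, ?_⟩
        simp only
        abel
      rw [← hL] at h1
      have h2 : A (f ((w + a) - (w + b) + (w + c))) ∈ I := h1
      rw [map_add, map_sub] at h2
      exact h2
    have hnt : (I : Set (Fin n)).Nontrivial := by
      obtain ⟨a, ha, b, hb, hab⟩ := Finset.one_lt_card.1 (by omega : 1 < I.card)
      exact ⟨a, ha, b, hb, hab⟩
    have hIu := hirr I hnt hcl
    -- then there is only one block
    have hone : P.parts ⊆ {I} := by
      intro J hJ
      rw [Finset.mem_singleton]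
      by_contra hne
      have hdis := P.disjoint hJ hI hne
      obtain ⟨j, hj⟩ := P.nonempty_of_mem_parts hJ
      have hjI : j ∈ I := by
        have : j ∈ (I : Set (Fin n)) := by rw [hIu]; trivial
        exact this
      exact Finset.disjoint_left.1 hdis hj hjI
    have := Finset.card_le_card hone
    rw [Finset.card_singleton] at this
    omega

/-- The cyclic groups of order 1, 2, 3, 5 (and all prime orders) give partitions into points. -/
lemma good_small {n : ℕ} (h : n = 1 ∨ n.Prime) : Good n := by
  have hn : n ≠ 0 := by
    rcases h with rfl | h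
    · norm_num
    · exact h.ne_zero
  have : NeZero n := ⟨hn⟩
  refine ⟨ZMod n, inferInstance, inferInstance, (ZMod.finEquiv n).symm, (ZMod.finEquiv n).symm.surjective, ?_, ?_⟩
  · intro i x hx y hy z hz
    have hx' : (ZMod.finEquiv n).symm x = i := hx
    have hy' : (ZMod.finEquiv n).symm y = i := hy
    have hz' : (ZMod.finEquiv n).symm z = i := hz
    have h1 : x = y := (ZMod.finEquiv n).symm.injective (hx'.trans hy'.symm)
    show (ZMod.finEquiv n).symm (x - y + z) = i
    rw [h1, sub_self, zero_add]
    exact hz'
  · intro I hI hcl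
    obtain ⟨a, ha, b, hb, hab⟩ := hI
    rcases h with rfl | h
    · exact absurd (Subsingleton.elim a b) hab
    have : Fact n.Prime := ⟨h⟩
    obtain ⟨a, rfl⟩ := (ZMod.finEquiv n).symm.surjective a
    obtain ⟨b, rfl⟩ := (ZMod.finEquiv n).symm.surjective b
    have hab' : a ≠ b := fun h => hab (by rw [h])
    -- all points `a + k (b - a)` belong to the set
    have key : ∀ k : ℕ, (ZMod.finEquiv n).symm (a + k * (b - a)) ∈ I := by
      intro k
      induction k with
      | zero => simpa using ha
      | succ k ih =>
        have h1 := hcl _ ih a ha b hb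
        have h2 : a + k * (b - a) - a + b = a + ((k + 1 : ℕ) : ZMod n) * (b - a) := by
          push_cast; ring
        rw [h2] at h1
        exact h1
    apply eq_univ_of_forall
    intro c
    obtain ⟨c, rfl⟩ := (ZMod.finEquiv n).symm.surjective c
    have hba : b - a ≠ 0 := sub_ne_zero.2 (Ne.symm hab')
    have h3 := key ((c - a) / (b - a)).val
    rw [ZMod.natCast_zmod_val, div_mul_cancel₀ _ hba] at h3
    simpa using h3

/-- There is an irreducible partition of a finite group of exponent two into `n ≥ 3` cosets two of
which have two elements. -/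
def Good2 (n : ℕ) : Prop :=
  ∃ (G : Type) (_ : AddCommGroup G) (_ : Finite G) (A : G → Fin n), Irreducible A ∧
    (∀ x : G, x + x = 0) ∧
    ∃ (i j k : Fin n) (p q r s : G), i ≠ j ∧ k ≠ i ∧ k ≠ j ∧ p ≠ q ∧ r ≠ s ∧
      (∀ x, A x = i ↔ x = p ∨ x = q) ∧ (∀ x, A x = j ↔ x = r ∨ x = s)

lemma Good2.good {n : ℕ} (h : Good2 n) : Good n := by
  obtain ⟨G, h1, h2, A, h3, -⟩ := h
  exact ⟨G, h1, h2, A, h3⟩

lemma Irreducible.comp_equiv {G ι κ : Type} [AddCommGroup G] {A : G → ι} (h : Irreducible A)
    (e : ι ≃ κ) : Irreducible (fun x => e (A x)) := by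
  obtain ⟨h1, h2, h3⟩ := h
  refine ⟨e.surjective.comp h1, ?_, ?_⟩
  · intro i
    have : (fun x => e (A x)) ⁻¹' {i} = A ⁻¹' {e.symm i} := by
      ext x
      simp [Equiv.eq_symm_apply]
    rw [this]
    exact h2 _
  · intro I hI hcl
    have h4 : (fun x => e (A x)) ⁻¹' I = A ⁻¹' (e ⁻¹' I) := rfl
    rw [h4] at hcl
    have h5 : (e ⁻¹' I).Nontrivial := by
      obtain ⟨a, ha, b, hb, hab⟩ := hI
      exact ⟨e.symm a, by simpa using ha, e.symm b, by simpa using hb,
        fun h => hab (e.symm.injective h)⟩
    have h6 := h3 _ h5 hcl
    apply eq_univ_of_forall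
    intro c
    have h7 : e.symm c ∈ e ⁻¹' I := by rw [h6]; trivial
    simpa using h7

lemma pair_coset {G : Type} [AddCommGroup G] (h2 : ∀ x : G, x + x = 0) (u v : G) :
    CosetLike {x | x = u ∨ x = v} := by
  have hn : ∀ x : G, -x = x := fun x => neg_eq_of_add_eq_zero_right (h2 x)
  have h3 : ∀ u v : G, u - v + u = v := by
    intro u v
    rw [sub_eq_add_neg, hn, add_right_comm, h2, zero_add]
  have h4 : ∀ u v : G, u - u + v = v := by
    intro u v
    abel
  have h5 : ∀ u v : G, u - v + v = u := by
    intro u v
    abel
  rintro x (hx | hx) y (hy | hy) z (hz | hz) <;> subst hx <;> subst hy <;> subst hz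
  · left; exact h4 _ _
  · right; exact h4 _ _
  · right; exact h3 _ _
  · left; exact h5 _ _
  · right; exact h5 _ _
  · left; exact h3 _ _
  · left; exact h4 _ _
  · right; exact h4 _ _

lemma prod_coset {G H : Type} [AddCommGroup G] [AddCommGroup H] {S : Set G} {T : Set H}
    (hS : CosetLike S) (hT : CosetLike T) : CosetLike (S ×ˢ T) := by
  rintro x ⟨hx1, hx2⟩ y ⟨hy1, hy2⟩ z ⟨hz1, hz2⟩
  exact ⟨hS _ hx1 _ hy1 _ hz1, hT _ hx2 _ hy2 _ hz2⟩

/-- The partition with two more parts. -/
noncomputable def ext {G : Type} {n : ℕ} (A : G → Fin n) (p q r s : G) (x : G × ZMod 2) :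
    Fin n ⊕ Bool := by
  classical
  exact if x.2 = 0 then Sum.inl (A x.1) else if x.1 = p ∨ x.1 = r then Sum.inr false
    else if x.1 = q ∨ x.1 = s then Sum.inr true else Sum.inl (A x.1)

/-- The step from `n` to `n + 2`. -/
lemma Good2.step {n : ℕ} (h : Good2 n) : Good2 (n + 2) := by
  classical
  obtain ⟨G, _, _, A, ⟨hA, hfib, hirr⟩, h2, i, j, k, p, q, r, s, hij, hki, hkj, hpq, hrs, hi, hj⟩ := h
  have hp : A p = i := (hi p).2 (Or.inl rfl)
  have hq : A q = i := (hi q).2 (Or.inr rfl)
  have hr : A r = j := (hj r).2 (Or.inl rfl)
  have hs : A s = j := (hj s).2 (Or.inr rfl)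
  have hpr : p ≠ r := fun h => hij (by rw [← hp, ← hr, h])
  have hps : p ≠ s := fun h => hij (by rw [← hp, ← hs, h])
  have hqr : q ≠ r := fun h => hij (by rw [← hq, ← hr, h])
  have hqs : q ≠ s := fun h => hij (by rw [← hq, ← hs, h])
  have h01 : ∀ ε : ZMod 2, ε = 0 ∨ ε = 1 := by decide
  have h10 : (1 : ZMod 2) ≠ 0 := by decide
  set B : G × ZMod 2 → Fin n ⊕ Bool := ext A p q r s with hB
  have hB0 : ∀ x, B (x, 0) = Sum.inl (A x) := by
    intro x
    simp [hB, ext]
  have hBp : B (p, 1) = Sum.inr false := by simp [hB, ext]
  have hBr : B (r, 1) = Sum.inr false := by simp [hB, ext]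
  have hBq : B (q, 1) = Sum.inr true := by simp [hB, ext, hpq.symm, hqr]
  have hBs : B (s, 1) = Sum.inr true := by simp [hB, ext, hps.symm, hrs.symm]
  have hBo : ∀ x, A x ≠ i → A x ≠ j → B (x, 1) = Sum.inl (A x) := by
    intro x h3 h4
    have e1 : x ≠ p := fun h => h3 (by rw [h, hp])
    have e2 : x ≠ q := fun h => h3 (by rw [h, hq])
    have e3 : x ≠ r := fun h => h4 (by rw [h, hr])
    have e4 : x ≠ s := fun h => h4 (by rw [h, hs])
    simp [hB, ext, e1, e2, e3, e4]
  -- the value in the second layer
  have hB1 : ∀ x, (B (x, 1) = Sum.inr false ∧ (x = p ∨ x = r)) ∨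
      (B (x, 1) = Sum.inr true ∧ (x = q ∨ x = s)) ∨
      (B (x, 1) = Sum.inl (A x) ∧ A x ≠ i ∧ A x ≠ j) := by
    intro x
    by_cases h3 : A x = i
    · rcases (hi x).1 h3 with rfl | rfl
      · exact Or.inl ⟨hBp, Or.inl rfl⟩
      · exact Or.inr (Or.inl ⟨hBq, Or.inl rfl⟩)
    · by_cases h4 : A x = j
      · rcases (hj x).1 h4 with rfl | rfl
        · exact Or.inl ⟨hBr, Or.inr rfl⟩
        · exact Or.inr (Or.inl ⟨hBs, Or.inr rfl⟩)
      · exact Or.inr (Or.inr ⟨hBo x h3 h4, h3, h4⟩)
  have hBsurj : Function.Surjective B := by
    rintro (a | b)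
    · obtain ⟨x, rfl⟩ := hA a
      exact ⟨(x, 0), hB0 x⟩
    · cases b
      · exact ⟨(p, 1), hBp⟩
      · exact ⟨(q, 1), hBq⟩
  have hirrB : Irreducible B := by
    refine ⟨hBsurj, ?_, ?_⟩
    · rintro (a | b)
      · by_cases ha : a = i ∨ a = j
        · have : B ⁻¹' {Sum.inl a} = (A ⁻¹' {a}) ×ˢ ({0} : Set (ZMod 2)) := by
            ext ⟨x, ε⟩
            rcases h01 ε with rfl | rfl
            · simp [hB0]
            · rcases hB1 x with ⟨h3, -⟩ | ⟨h3, -⟩ | ⟨h3, h4, h5⟩
              · simp [h3]
              · simp [h3]
              · simp only [mem_preimage, h3, mem_singleton_iff, Sum.inl.injEq, mem_prod, h10,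
                  and_false, iff_false]
                rintro rfl
                rcases ha with ha | ha
                · exact h4 ha
                · exact h5 ha
          rw [this]
          apply prod_coset (hfib a)
          rintro x rfl y rfl z rfl
          simp
        · push Not at ha
          have : B ⁻¹' {Sum.inl a} = (A ⁻¹' {a}) ×ˢ (univ : Set (ZMod 2)) := by
            ext ⟨x, ε⟩
            rcases h01 ε with rfl | rfl
            · simp [hB0]
            · rcases hB1 x with ⟨h3, h4⟩ | ⟨h3, h4⟩ | ⟨h3, h4, h5⟩
              · simp only [mem_preimage, h3, mem_singleton_iff, reduceCtorEq, mem_prod, mem_univ,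
                  and_true, false_iff]
                rcases h4 with rfl | rfl
                · rw [hp]; exact ha.1.symm
                · rw [hr]; exact ha.2.symm
              · simp only [mem_preimage, h3, mem_singleton_iff, reduceCtorEq, mem_prod, mem_univ,
                  and_true, false_iff]
                rcases h4 with rfl | rfl
                · rw [hq]; exact ha.1.symm
                · rw [hs]; exact ha.2.symm
              · simp [h3]
          rw [this]
          apply prod_coset (hfib a)
          intro x _ y _ z _
          trivial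
      · cases b
        · have : B ⁻¹' {Sum.inr false} = {x | x = p ∨ x = r} ×ˢ ({1} : Set (ZMod 2)) := by
            ext ⟨x, ε⟩
            rcases h01 ε with rfl | rfl
            · simp [hB0]
            · constructor
              · intro h3
                rcases hB1 x with ⟨-, h4⟩ | ⟨h4, -⟩ | ⟨h4, -⟩
                · exact ⟨h4, rfl⟩
                · have h3' : B (x, 1) = Sum.inr false := h3
                  rw [h4] at h3'
                  simp at h3'
                · have h3' : B (x, 1) = Sum.inr false := h3
                  rw [h4] at h3'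
                  simp at h3'
              · rintro ⟨h3, -⟩
                rcases h3 with h3 | h3
                · have h3' : x = p := h3
                  rw [h3']; exact hBp
                · have h3' : x = r := h3
                  rw [h3']; exact hBr
          rw [this]
          apply prod_coset (pair_coset h2 p r)
          rintro x rfl y rfl z rfl
          decide
        · have : B ⁻¹' {Sum.inr true} = {x | x = q ∨ x = s} ×ˢ ({1} : Set (ZMod 2)) := by
            ext ⟨x, ε⟩
            rcases h01 ε with rfl | rfl
            · simp [hB0]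
            · constructor
              · intro h3
                rcases hB1 x with ⟨h4, -⟩ | ⟨-, h4⟩ | ⟨h4, -⟩
                · have h3' : B (x, 1) = Sum.inr true := h3
                  rw [h4] at h3'
                  simp at h3'
                · exact ⟨h4, rfl⟩
                · have h3' : B (x, 1) = Sum.inr true := h3
                  rw [h4] at h3'
                  simp at h3'
              · rintro ⟨h3, -⟩
                rcases h3 with h3 | h3
                · have h3' : x = q := h3
                  rw [h3']; exact hBq
                · have h3' : x = s := h3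
                  rw [h3']; exact hBs
          rw [this]
          apply prod_coset (pair_coset h2 q s)
          rintro x rfl y rfl z rfl
          decide
    · intro I hI hcl
      -- the membership of the sum of three points
      have tri : ∀ x y z : G, ∀ a b c : ZMod 2, B (x, a) ∈ I → B (y, b) ∈ I → B (z, c) ∈ I →
          B (x - y + z, a - b + c) ∈ I := fun x y z a b c h3 h4 h5 => hcl _ h3 _ h4 _ h5
      set I0 : Set (Fin n) := {a | Sum.inl a ∈ I} with hI0
      have hmem0 : ∀ x, B (x, 0) ∈ I → A x ∈ I0 := by
        intro x hx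
        rw [hB0] at hx
        exact hx
      have hmem0' : ∀ x, A x ∈ I0 → B (x, 0) ∈ I := by
        intro x hx
        rw [hB0]
        exact hx
      have hcl0 : CosetLike (A ⁻¹' I0) := by
        intro x hx y hy z hz
        have h3 := tri x y z 0 0 0 (hmem0' x hx) (hmem0' y hy) (hmem0' z hz)
        simp only [sub_zero, add_zero] at h3
        exact hmem0 _ h3
      by_cases hnt : I0.Nontrivial
      · have hu := hirr I0 hnt hcl0
        have hall0 : ∀ x, B (x, 0) ∈ I := fun x => hmem0' x (by rw [hu]; trivial)
        obtain ⟨z, hz⟩ := hA k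
        have hz1 : B (z, 1) ∈ I := by
          rw [hBo z (by rw [hz]; exact hki) (by rw [hz]; exact hkj), ← hB0]
          exact hall0 z
        have hall1 : ∀ x, B (x, 1) ∈ I := by
          intro x
          have h3 := tri x z z 0 0 1 (hall0 x) (hall0 z) hz1
          simpa using h3
        apply eq_univ_of_forall
        intro c
        obtain ⟨⟨x, ε⟩, rfl⟩ := hBsurj c
        rcases h01 ε with rfl | rfl
        · exact hall0 x
        · exact hall1 x
      · exfalso
        rw [Set.not_nontrivial_iff] at hnt
        -- some new part belongs to the family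
        have hb : ∃ b, Sum.inr b ∈ I := by
          obtain ⟨α, hα, β, hβ, hαβ⟩ := hI
          rcases α with a | b
          · rcases β with a' | b'
            · exact absurd (by rw [hnt hα hβ]) hαβ
            · exact ⟨b', hβ⟩
          · exact ⟨b, hα⟩
        rcases I0.eq_empty_or_nonempty with hemp | ⟨a, ha⟩
        · -- only new parts
          have hno : ∀ a, Sum.inl a ∉ I := by
            intro a ha
            have : a ∈ I0 := ha
            rw [hemp] at this
            exact this
          have hboth : Sum.inr false ∈ I ∧ Sum.inr true ∈ I := by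
            obtain ⟨α, hα, β, hβ, hαβ⟩ := hI
            rcases α with a | b
            · exact absurd hα (hno a)
            rcases β with a' | b'
            · exact absurd hβ (hno a')
            cases b <;> cases b'
            · exact absurd rfl hαβ
            · exact ⟨hα, hβ⟩
            · exact ⟨hβ, hα⟩
            · exact absurd rfl hαβ
          have hiff : ∀ x, B (x, 1) ∈ I ↔ A x = i ∨ A x = j := by
            intro x
            rcases hB1 x with ⟨h3, h4⟩ | ⟨h3, h4⟩ | ⟨h3, h4, h5⟩
            · rw [h3]
              refine ⟨fun _ => ?_, fun _ => hboth.1⟩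
              rcases h4 with rfl | rfl
              · exact Or.inl hp
              · exact Or.inr hr
            · rw [h3]
              refine ⟨fun _ => ?_, fun _ => hboth.2⟩
              rcases h4 with rfl | rfl
              · exact Or.inl hq
              · exact Or.inr hs
            · rw [h3]
              refine ⟨fun h6 => absurd h6 (hno _), fun h6 => ?_⟩
              rcases h6 with h6 | h6
              · exact absurd h6 h4
              · exact absurd h6 h5
          have hcl1 : CosetLike (A ⁻¹' {i, j}) := by
            intro x hx y hy z hz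
            have h3 := tri x y z 1 1 1 ((hiff x).2 hx) ((hiff y).2 hy) ((hiff z).2 hz)
            have h4 : (1 : ZMod 2) - 1 + 1 = 1 := by decide
            rw [h4] at h3
            exact (hiff _).1 h3
          have h5 := hirr {i, j} ⟨i, Or.inl rfl, j, Or.inr rfl, hij⟩ hcl1
          have h6 : k ∈ ({i, j} : Set (Fin n)) := by rw [h5]; trivial
          rcases h6 with h6 | h6
          · exact hki h6
          · exact hkj h6
        · have hswap : (1 : ZMod 2) - 1 + 0 = 0 := by decide
          obtain ⟨b, hb⟩ := hb
          by_cases hai : a = i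
          · subst hai
            have hja : j ∉ I0 := fun h => hij (hnt ha h)
            cases b
            · have h3 := tri r p p 1 1 0 (by rw [hBr]; exact hb) (by rw [hBp]; exact hb)
                (hmem0' p (by rw [hp]; exact ha))
              rw [hswap, sub_add_cancel] at h3
              exact hja (by rw [← hr]; exact hmem0 _ h3)
            · have h3 := tri s q q 1 1 0 (by rw [hBs]; exact hb) (by rw [hBq]; exact hb)
                (hmem0' q (by rw [hq]; exact ha))
              rw [hswap, sub_add_cancel] at h3
              exact hja (by rw [← hs]; exact hmem0 _ h3)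
          · have hia : i ∉ I0 := fun h => hai (hnt ha h)
            by_cases haj : a = j
            · subst haj
              cases b
              · have h3 := tri p r r 1 1 0 (by rw [hBp]; exact hb) (by rw [hBr]; exact hb)
                  (hmem0' r (by rw [hr]; exact ha))
                rw [hswap, sub_add_cancel] at h3
                exact hia (by rw [← hp]; exact hmem0 _ h3)
              · have h3 := tri q s s 1 1 0 (by rw [hBq]; exact hb) (by rw [hBs]; exact hb)
                  (hmem0' s (by rw [hs]; exact ha))
                rw [hswap, sub_add_cancel] at h3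
                exact hia (by rw [← hq]; exact hmem0 _ h3)
            · obtain ⟨x, hx⟩ := hA a
              have hx1 : B (x, 1) ∈ I := by
                rw [hBo x (by rw [hx]; exact hai) (by rw [hx]; exact haj), hx]
                exact ha
              have hx0 : B (x, 0) ∈ I := hmem0' x (by rw [hx]; exact ha)
              cases b
              · have h3 := tri p x x 1 1 0 (by rw [hBp]; exact hb) hx1 hx0
                rw [hswap, sub_add_cancel] at h3
                exact hia (by rw [← hp]; exact hmem0 _ h3)
              · have h3 := tri q x x 1 1 0 (by rw [hBq]; exact hb) hx1 hx0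
                rw [hswap, sub_add_cancel] at h3
                exact hia (by rw [← hq]; exact hmem0 _ h3)
  -- transport to `Fin (n + 2)`
  have e : Fin n ⊕ Bool ≃ Fin (n + 2) :=
    (Equiv.sumCongr (Equiv.refl _) finTwoEquiv.symm).trans finSumFinEquiv
  refine ⟨G × ZMod 2, inferInstance, inferInstance, fun x => e (B x), hirrB.comp_equiv e, ?_,
    e (Sum.inl i), e (Sum.inl j), e (Sum.inl k), (p, 0), (q, 0), (r, 0), (s, 0), ?_, ?_, ?_, ?_, ?_,
    ?_, ?_⟩
  · rintro ⟨x, ε⟩
    rw [Prod.mk_add_mk, h2]
    rcases h01 ε with rfl | rfl <;> rfl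
  · intro h; exact hij (Sum.inl_injective (e.injective h))
  · intro h; exact hki (Sum.inl_injective (e.injective h))
  · intro h; exact hkj (Sum.inl_injective (e.injective h))
  · intro h; exact hpq (Prod.mk.inj h).1
  · intro h; exact hrs (Prod.mk.inj h).1
  · rintro ⟨x, ε⟩
    rw [e.injective.eq_iff]
    rcases h01 ε with rfl | rfl
    · rw [hB0, Sum.inl.injEq, hi]; simp
    · constructor
      · intro h3
        rcases hB1 x with ⟨h4, -⟩ | ⟨h4, -⟩ | ⟨h4, h5, -⟩
        · rw [h4] at h3; simp at h3
        · rw [h4] at h3; simp at h3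
        · rw [h4] at h3; exact absurd (Sum.inl_injective h3) h5
      · simp
  · rintro ⟨x, ε⟩
    rw [e.injective.eq_iff]
    rcases h01 ε with rfl | rfl
    · rw [hB0, Sum.inl.injEq, hj]; simp
    · constructor
      · intro h3
        rcases hB1 x with ⟨h4, -⟩ | ⟨h4, -⟩ | ⟨h4, -, h5⟩
        · rw [h4] at h3; simp at h3
        · rw [h4] at h3; simp at h3
        · rw [h4] at h3; exact absurd (Sum.inl_injective h3) h5
      · simp

/-! ### The two partitions the construction starts from -/

/-- The space with 8 points. -/
abbrev V3 : Type := ZMod 2 × ZMod 2 × ZMod 2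

def tab4 : List (Fin 4) := [0, 3, 1, 1, 2, 3, 2, 0]

/-- The partition of the 8 points into the lines `{000, 111}`, `{010, 011}`, `{100, 110}`,
`{001, 101}`. -/
def A4 (x : V3) : Fin 4 := tab4.getD (x.1.val * 4 + x.2.1.val * 2 + x.2.2.val) 0

lemma A4_cos : ∀ x y z : V3, A4 x = A4 y → A4 z = A4 y → A4 (x - y + z) = A4 y := by
  decide +kernel

def chk4 (I : Fin 4 → Bool) : Bool :=
  decide (∀ x y z : V3, I (A4 x) = true → I (A4 y) = true → I (A4 z) = true →
    I (A4 (x - y + z)) = true)

lemma A4_irr : ∀ b0 b1 b2 b3 : Bool,
    (∃ i j : Fin 4, i ≠ j ∧ (![b0, b1, b2, b3] : Fin 4 → Bool) i = true ∧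
      (![b0, b1, b2, b3] : Fin 4 → Bool) j = true) →
    chk4 ![b0, b1, b2, b3] = true → ∀ i, (![b0, b1, b2, b3] : Fin 4 → Bool) i = true := by
  decide +kernel

/-- The space with 16 points. -/
abbrev V4 : Type := ZMod 2 × ZMod 2 × ZMod 2 × ZMod 2

def tab7 : List (Fin 7) := [0, 1, 0, 2, 3, 4, 3, 2, 4, 5, 6, 6, 5, 0, 1, 0]

/-- A partition of the 16 points into a plane and six lines. -/
def A7 (x : V4) : Fin 7 :=
  tab7.getD (x.1.val * 8 + x.2.1.val * 4 + x.2.2.1.val * 2 + x.2.2.2.val) 0

lemma A7_cos : ∀ x y z : V4, A7 x = A7 y → A7 z = A7 y → A7 (x - y + z) = A7 y := by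
  decide +kernel

def chk7 (I : Fin 7 → Bool) : Bool :=
  decide (∀ x y z : V4, I (A7 x) = true → I (A7 y) = true → I (A7 z) = true →
    I (A7 (x - y + z)) = true)

lemma A7_irr : ∀ b0 b1 b2 b3 b4 b5 b6 : Bool,
    (∃ i j : Fin 7, i ≠ j ∧ (![b0, b1, b2, b3, b4, b5, b6] : Fin 7 → Bool) i = true ∧
      (![b0, b1, b2, b3, b4, b5, b6] : Fin 7 → Bool) j = true) →
    chk7 ![b0, b1, b2, b3, b4, b5, b6] = true →
    ∀ i, (![b0, b1, b2, b3, b4, b5, b6] : Fin 7 → Bool) i = true := by
  decide +kernel

lemma irr4 : Irreducible A4 := by
  classical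
  refine ⟨?_, ?_, ?_⟩
  · intro i
    have : ∀ i, ∃ x, A4 x = i := by decide +kernel
    exact this i
  · rintro i x hx y hy z hz
    have hx' : A4 x = i := hx
    have hy' : A4 y = i := hy
    have hz' : A4 z = i := hz
    have := A4_cos x y z (hx'.trans hy'.symm) (hz'.trans hy'.symm)
    exact this.trans hy'
  · rintro I ⟨a, ha, b, hb, hab⟩ hcl
    set f : Fin 4 → Bool := fun i => decide (i ∈ I) with hf
    have hfe : f = ![f 0, f 1, f 2, f 3] := by
      funext i
      fin_cases i <;> rfl
    have h := A4_irr (f 0) (f 1) (f 2) (f 3)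
    rw [← hfe] at h
    have h1 := h ⟨a, b, hab, by simp [hf, ha], by simp [hf, hb]⟩ (by
      unfold chk4
      rw [decide_eq_true_eq]
      intro x y z hx hy hz
      rw [hf] at hx hy hz ⊢
      simp only [decide_eq_true_eq] at hx hy hz ⊢
      exact hcl x hx y hy z hz)
    apply eq_univ_of_forall
    intro i
    have h2 := h1 i
    rw [hf] at h2
    simpa using h2

lemma irr7 : Irreducible A7 := by
  classical
  refine ⟨?_, ?_, ?_⟩
  · intro i
    have : ∀ i, ∃ x, A7 x = i := by decide +kernel
    exact this i
  · rintro i x hx y hy z hz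
    have hx' : A7 x = i := hx
    have hy' : A7 y = i := hy
    have hz' : A7 z = i := hz
    have := A7_cos x y z (hx'.trans hy'.symm) (hz'.trans hy'.symm)
    exact this.trans hy'
  · rintro I ⟨a, ha, b, hb, hab⟩ hcl
    set f : Fin 7 → Bool := fun i => decide (i ∈ I) with hf
    have hfe : f = ![f 0, f 1, f 2, f 3, f 4, f 5, f 6] := by
      funext i
      fin_cases i <;> rfl
    have h := A7_irr (f 0) (f 1) (f 2) (f 3) (f 4) (f 5) (f 6)
    rw [← hfe] at h
    have h1 := h ⟨a, b, hab, by simp [hf, ha], by simp [hf, hb]⟩ (by
      unfold chk7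
      rw [decide_eq_true_eq]
      intro x y z hx hy hz
      rw [hf] at hx hy hz ⊢
      simp only [decide_eq_true_eq] at hx hy hz ⊢
      exact hcl x hx y hy z hz)
    apply eq_univ_of_forall
    intro i
    have h2 := h1 i
    rw [hf] at h2
    simpa using h2

lemma good2_four : Good2 4 :=
  ⟨V3, inferInstance, inferInstance, A4, irr4, by decide +kernel, 0, 1, 2,
    (0, 0, 0), (1, 1, 1), (0, 1, 0), (0, 1, 1), by decide, by decide, by decide, by decide,
    by decide, by decide +kernel, by decide +kernel⟩

lemma good2_seven : Good2 7 :=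
  ⟨V4, inferInstance, inferInstance, A7, irr7, by decide +kernel, 1, 2, 3,
    (0, 0, 0, 1), (1, 1, 1, 0), (0, 0, 1, 1), (0, 1, 1, 1), by decide, by decide, by decide,
    by decide, by decide, by decide +kernel, by decide +kernel⟩

lemma good2_even (t : ℕ) : Good2 (4 + 2 * t) := by
  induction t with
  | zero => exact good2_four
  | succ t ih => exact ih.step

lemma good2_odd (t : ℕ) : Good2 (7 + 2 * t) := by
  induction t with
  | zero => exact good2_seven
  | succ t ih => exact ih.step

lemma good_all (n : ℕ) (hn : 1 ≤ n) : Good n := by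
  by_cases h1 : n = 1 ∨ n.Prime
  · exact good_small h1
  · push Not at h1
    have h2 : n ≠ 2 := fun h => h1.2 (by rw [h]; norm_num)
    have h3 : n ≠ 3 := fun h => h1.2 (by rw [h]; norm_num)
    have h5 : n ≠ 5 := fun h => h1.2 (by rw [h]; norm_num)
    rcases Nat.even_or_odd' n with ⟨k, hk | hk⟩
    · have : n = 4 + 2 * (k - 2) := by omega
      rw [this]
      exact (good2_even _).good
    · have : n = 7 + 2 * (k - 3) := by omega
      rw [this]
      exact (good2_odd _).good

/-- **Primitive lattice tilings exist for every number of tiles**: for every `n ≥ 1` there are a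
dimension `d ≥ 1` and a primitive lattice tiling of `ℤ^d` with exactly `n` lattice translates. -/
theorem result (n : ℕ) (hn : 1 ≤ n) : ∃ d, 1 ≤ d ∧ ∃ T : Tiling d n, T.Primitive :=
  (good_all n hn).exists_tiling

end Pool.Agent.Results.MP_f7d7fe_co.AllSizes
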